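import Mathlib
import Pool.Agent.Helper8.KS.Defs
import Pool.Agent.Helper17.KSLink1

set_option autoImplicit false

/-!
# Adding long chains below and above a poset
-/

open Pool.Agent.Helper1.Balance Pool.Agent.Helper8.KS

namespace Pool.Agent.Helper11.Chain

variable {n : ℕ}

/-- `r` with chains of length `K` added below and above. -/
def ext (K : ℕ) (r : Fin n → Fin n → Prop) (i j : Fin (K + n + K)) : Prop :=
  ((i : ℕ) < K ∧ i ≤ j) ∨ (K + n ≤ (j : ℕ) ∧ i ≤ j) ∨
    ∃ a b : Fin n, (i : ℕ) = K + a ∧ (j : ℕ) = K + b ∧ r a b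

/-- The copy of `x` in the extended poset. -/
def emb (K : ℕ) (x : Fin n) : Fin (K + n + K) := ⟨K + x, by omega⟩

theorem emb_val (K : ℕ) (x : Fin n) : ((emb K x : Fin (K + n + K)) : ℕ) = K + x := rfl

theorem emb_injective (K : ℕ) : Function.Injective (emb (n := n) K) := by
  intro x y h
  have := congrArg (fun z : Fin (K + n + K) => (z : ℕ)) h
  simp only [emb_val] at this
  exact Fin.ext (by omega)

theorem exists_emb (K : ℕ) (q : Fin (K + n + K)) (h1 : K ≤ (q : ℕ)) (h2 : (q : ℕ) < K + n) :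
    ∃ x : Fin n, emb K x = q :=
  ⟨⟨q - K, by omega⟩, Fin.ext (by simp only [emb_val]; omega)⟩

theorem ext_emb (K : ℕ) (r : Fin n → Fin n → Prop) (x y : Fin n) :
    ext K r (emb K x) (emb K y) ↔ r x y := by
  constructor
  · rintro (⟨h, -⟩ | ⟨h, -⟩ | ⟨a, b, ha, hb, hab⟩)
    · simp only [emb_val] at h; omega
    · simp only [emb_val] at h; omega
    · simp only [emb_val] at ha hb
      have ha' : x = a := Fin.ext (by omega)
      have hb' : y = b := Fin.ext (by omega)
      rw [ha', hb']; exact hab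
  · intro h
    exact Or.inr (Or.inr ⟨x, y, rfl, rfl, h⟩)

theorem ext_isPoset (K : ℕ) (r : Fin n → Fin n → Prop) (hr : IsPoset r) :
    IsPoset (ext K r) := by
  obtain ⟨hrefl, htrans, hanti⟩ := hr
  refine ⟨?_, ?_, ?_⟩
  · intro a
    by_cases h1 : (a : ℕ) < K
    · exact Or.inl ⟨h1, le_refl a⟩
    · by_cases h2 : K + n ≤ (a : ℕ)
      · exact Or.inr (Or.inl ⟨h2, le_refl a⟩)
      · obtain ⟨x, rfl⟩ := exists_emb K a (by omega) (by omega)
        exact (ext_emb K r x x).2 (hrefl x)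
  · intro a b c hab hbc
    rcases hab with ⟨h1, h2⟩ | ⟨h1, h2⟩ | ⟨x, y, hx, hy, hxy⟩
    · rcases hbc with ⟨h3, h4⟩ | ⟨h3, h4⟩ | ⟨x, y, hx, hy, hxy⟩
      · exact Or.inl ⟨h1, le_trans h2 h4⟩
      · exact Or.inl ⟨h1, le_trans h2 h4⟩
      · refine Or.inl ⟨h1, ?_⟩
        rw [Fin.le_def]; omega
    · rcases hbc with ⟨h3, h4⟩ | ⟨h3, h4⟩ | ⟨x, y, hx, hy, hxy⟩
      · omega
      · exact Or.inr (Or.inl ⟨h3, le_trans h2 h4⟩)
      · omega
    · rcases hbc with ⟨h3, h4⟩ | ⟨h3, h4⟩ | ⟨x', y', hx', hy', hxy'⟩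
      · omega
      · refine Or.inr (Or.inl ⟨h3, ?_⟩)
        rw [Fin.le_def]; omega
      · have : y = x' := Fin.ext (by omega)
        subst this
        exact Or.inr (Or.inr ⟨x, y', hx, hy', htrans _ _ _ hxy hxy'⟩)
  · intro a b hab hba
    rcases hab with ⟨h1, h2⟩ | ⟨h1, h2⟩ | ⟨x, y, hx, hy, hxy⟩
    · rcases hba with ⟨h3, h4⟩ | ⟨h3, h4⟩ | ⟨x, y, hx, hy, hxy⟩
      · exact le_antisymm h2 h4
      · exact le_antisymm h2 h4
      · omega
    · rcases hba with ⟨h3, h4⟩ | ⟨h3, h4⟩ | ⟨x, y, hx, hy, hxy⟩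
      · exact le_antisymm h2 h4
      · exact le_antisymm h2 h4
      · omega
    · rcases hba with ⟨h3, h4⟩ | ⟨h3, h4⟩ | ⟨x', y', hx', hy', hxy'⟩
      · omega
      · omega
      · have e1 : y = x' := Fin.ext (by omega)
        have e2 : x = y' := Fin.ext (by omega)
        subst e1; subst e2
        have := hanti _ _ hxy hxy'
        exact Fin.ext (by omega)

theorem mem_LEs {m : ℕ} {r : Fin m → Fin m → Prop} {σ : Equiv.Perm (Fin m)} :
    σ ∈ LEs r ↔ ∀ a b, r a b → σ a ≤ σ b := by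
  classical
  simp [LEs]

/-- linear extensions fix the lower chain -/
theorem le_chain_low (K : ℕ) (r : Fin n → Fin n → Prop) {σ : Equiv.Perm (Fin (K + n + K))}
    (hσ : σ ∈ LEs (ext K r)) : ∀ (q : ℕ) (hq : q < K),
    σ ⟨q, by omega⟩ = ⟨q, by omega⟩ := by
  intro q
  induction q using Nat.strong_induction_on with
  | _ q ih =>
    intro hq
    rw [mem_LEs] at hσ
    set Q : Fin (K + n + K) := ⟨q, by omega⟩ with hQ
    obtain ⟨j, hj⟩ := σ.surjective Q
    have hjq : Q ≤ j := by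
      by_contra hcon
      push Not at hcon
      have hj1 : (j : ℕ) < q := hcon
      have h1 := ih j hj1 (by omega)
      have h2 : (⟨(j : ℕ), by omega⟩ : Fin (K + n + K)) = j := rfl
      rw [h2, hj] at h1
      have : (Q : ℕ) = j := by rw [h1]
      simp only [hQ] at this
      omega
    have h1 : σ Q ≤ Q := by
      have := hσ Q j (Or.inl ⟨hq, hjq⟩)
      rwa [hj] at this
    refine le_antisymm h1 ?_
    by_contra hcon
    push Not at hcon
    have h2 : ((σ Q : Fin (K + n + K)) : ℕ) < q := hcon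
    have h3 := ih _ h2 (by omega)
    have h4 : (⟨((σ Q : Fin (K + n + K)) : ℕ), by omega⟩ : Fin (K + n + K)) = σ Q := rfl
    rw [h4] at h3
    have h5 := σ.injective h3
    rw [h5] at h2
    simp only [hQ] at h2
    omega

/-- linear extensions fix the upper chain -/
theorem le_chain_up (K : ℕ) (r : Fin n → Fin n → Prop) {σ : Equiv.Perm (Fin (K + n + K))}
    (hσ : σ ∈ LEs (ext K r)) : ∀ (d : ℕ) (hd : d < K),
    σ ⟨K + n + K - 1 - d, by omega⟩ = ⟨K + n + K - 1 - d, by omega⟩ := by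
  intro d
  induction d using Nat.strong_induction_on with
  | _ d ih =>
    intro hd
    rw [mem_LEs] at hσ
    set Q : Fin (K + n + K) := ⟨K + n + K - 1 - d, by omega⟩ with hQ
    have hQv : (Q : ℕ) = K + n + K - 1 - d := rfl
    have key : ∀ j : Fin (K + n + K), Q < j → σ j = j := by
      intro j hj
      have hj1 : K + n + K - 1 - d < (j : ℕ) := hj
      have h1 := ih (K + n + K - 1 - (j : ℕ)) (by omega) (by omega)
      have h2 : (⟨K + n + K - 1 - (K + n + K - 1 - (j : ℕ)), by omega⟩ : Fin (K + n + K)) = j :=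
        Fin.ext (by simp only; omega)
      rwa [h2] at h1
    obtain ⟨j, hj⟩ := σ.surjective Q
    have hjq : j ≤ Q := by
      by_contra hcon
      push Not at hcon
      have h1 := key j hcon
      rw [hj] at h1
      rw [← h1] at hcon
      exact lt_irrefl _ hcon
    have h1 : Q ≤ σ Q := by
      have := hσ j Q (Or.inr (Or.inl ⟨by omega, hjq⟩))
      rwa [hj] at this
    refine le_antisymm ?_ h1
    by_contra hcon
    push Not at hcon
    have h3 := key _ hcon
    have h5 := σ.injective h3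
    rw [h5] at hcon
    exact lt_irrefl _ hcon

/-- linear extensions fix the chains -/
theorem le_chain (K : ℕ) (r : Fin n → Fin n → Prop) {σ : Equiv.Perm (Fin (K + n + K))}
    (hσ : σ ∈ LEs (ext K r)) (q : Fin (K + n + K)) (hq : (q : ℕ) < K ∨ K + n ≤ (q : ℕ)) :
    σ q = q := by
  rcases hq with h | h
  · exact le_chain_low K r hσ q h
  · have h1 := le_chain_up K r hσ (K + n + K - 1 - (q : ℕ)) (by omega)
    have h2 : (⟨K + n + K - 1 - (K + n + K - 1 - (q : ℕ)), by omega⟩ : Fin (K + n + K)) = q :=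
      Fin.ext (by simp only; omega)
    rwa [h2] at h1

theorem le_mid (K : ℕ) (r : Fin n → Fin n → Prop) {σ : Equiv.Perm (Fin (K + n + K))}
    (hσ : σ ∈ LEs (ext K r)) (x : Fin n) :
    K ≤ (σ (emb K x) : ℕ) ∧ (σ (emb K x) : ℕ) < K + n := by
  by_contra hcon
  have h1 : ((σ (emb K x) : Fin (K + n + K)) : ℕ) < K ∨
      K + n ≤ ((σ (emb K x) : Fin (K + n + K)) : ℕ) := by omega
  have h2 := le_chain K r hσ (σ (emb K x)) h1
  have h3 := σ.injective h2
  rw [h3] at h1
  simp only [emb_val] at h1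
  omega

/-- The lift of a permutation. -/
noncomputable def lft (K : ℕ) (τ : Equiv.Perm (Fin n)) : Equiv.Perm (Fin (K + n + K)) :=
  τ.viaFintypeEmbedding ⟨emb K, emb_injective K⟩

theorem lft_emb (K : ℕ) (τ : Equiv.Perm (Fin n)) (x : Fin n) :
    lft K τ (emb K x) = emb K (τ x) :=
  Equiv.Perm.viaFintypeEmbedding_apply_image τ ⟨emb K, emb_injective K⟩ x

theorem lft_chain (K : ℕ) (τ : Equiv.Perm (Fin n)) (q : Fin (K + n + K))
    (hq : (q : ℕ) < K ∨ K + n ≤ (q : ℕ)) : lft K τ q = q := by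
  refine Equiv.Perm.viaFintypeEmbedding_apply_notMem_range τ ⟨emb K, emb_injective K⟩ ?_
  rintro ⟨x, hx⟩
  have : (q : ℕ) = K + x := by rw [← hx]; rfl
  omega

theorem lft_mem (K : ℕ) (r : Fin n → Fin n → Prop) {τ : Equiv.Perm (Fin n)} (hτ : τ ∈ LEs r) :
    lft K τ ∈ LEs (ext K r) := by
  rw [mem_LEs] at hτ ⊢
  intro a b hab
  have key : ∀ q : Fin (K + n + K), ((q : ℕ) < K ∨ K + n ≤ (q : ℕ)) ∨
      ∃ x : Fin n, q = emb K x := by
    intro q
    by_cases h : (q : ℕ) < K ∨ K + n ≤ (q : ℕ)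
    · exact Or.inl h
    · obtain ⟨x, hx⟩ := exists_emb K q (by omega) (by omega)
      exact Or.inr ⟨x, hx.symm⟩
  rcases hab with ⟨h1, h2⟩ | ⟨h1, h2⟩ | ⟨x, y, hx, hy, hxy⟩
  · rw [lft_chain K τ a (Or.inl h1)]
    rcases key b with hb | ⟨x, rfl⟩
    · rw [lft_chain K τ b hb]; exact h2
    · rw [lft_emb, Fin.le_def, emb_val]; omega
  · rw [lft_chain K τ b (Or.inr h1)]
    rcases key a with ha | ⟨x, rfl⟩
    · rw [lft_chain K τ a ha]; exact h2
    · rw [lft_emb, Fin.le_def, emb_val]; omega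
  · have ha : a = emb K x := Fin.ext (by rw [emb_val]; exact hx)
    have hb : b = emb K y := Fin.ext (by rw [emb_val]; exact hy)
    rw [ha, hb, lft_emb, lft_emb, Fin.le_def, emb_val, emb_val]
    have := hτ x y hxy
    rw [Fin.le_def] at this
    omega

theorem exists_lft (K : ℕ) (r : Fin n → Fin n → Prop) {σ : Equiv.Perm (Fin (K + n + K))}
    (hσ : σ ∈ LEs (ext K r)) : ∃ τ ∈ LEs r, lft K τ = σ := by
  have hm := le_mid K r hσ
  have hf : ∀ x : Fin n, ∃ y : Fin n, emb K y = σ (emb K x) := fun x =>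
    exists_emb K _ (hm x).1 (hm x).2
  choose f hf using hf
  have hinj : Function.Injective f := by
    intro x y hxy
    have : σ (emb K x) = σ (emb K y) := by rw [← hf, ← hf, hxy]
    exact emb_injective K (σ.injective this)
  refine ⟨Equiv.ofBijective f (Finite.injective_iff_bijective.1 hinj), ?_, ?_⟩
  · rw [mem_LEs] at hσ ⊢
    intro a b hab
    have h1 := hσ (emb K a) (emb K b) ((ext_emb K r a b).2 hab)
    rw [← hf, ← hf, Fin.le_def, emb_val, emb_val] at h1
    rw [Equiv.ofBijective_apply, Equiv.ofBijective_apply, Fin.le_def]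
    omega
  · ext q
    by_cases h : (q : ℕ) < K ∨ K + n ≤ (q : ℕ)
    · rw [lft_chain K _ q h, le_chain K r hσ q h]
    · obtain ⟨x, rfl⟩ := exists_emb K q (by omega) (by omega)
      rw [lft_emb, Equiv.ofBijective_apply, hf]

theorem lft_injective (K : ℕ) : Function.Injective (lft (n := n) K) := by
  intro τ τ' h
  ext x
  have h1 : lft K τ (emb K x) = lft K τ' (emb K x) := by rw [h]
  rw [lft_emb, lft_emb] at h1
  rw [emb_injective K h1]

theorem LEs_ext (K : ℕ) (r : Fin n → Fin n → Prop) :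
    LEs (ext K r) = (LEs r).map ⟨lft K, lft_injective K⟩ := by
  ext σ
  rw [Finset.mem_map]
  constructor
  · intro h
    obtain ⟨τ, hτ, h2⟩ := exists_lft K r h
    exact ⟨τ, hτ, h2⟩
  · rintro ⟨τ, hτ, rfl⟩
    exact lft_mem K r hτ

theorem Ex_ext (K : ℕ) (r : Fin n → Fin n → Prop) (f : Equiv.Perm (Fin (K + n + K)) → ℝ) :
    Ex (ext K r) f = Ex r (fun τ => f (lft K τ)) := by
  unfold Ex
  rw [LEs_ext, Finset.sum_map, Finset.card_map]
  rfl

theorem LEs_nonempty {m : ℕ} (r : Fin m → Fin m → Prop) (hr : IsPoset r) :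
    (LEs r).Nonempty := by
  have h1 := Pool.Agent.Helper17.KSLink.LEf_pos hr
  have h2 : LEs r = Pool.Agent.Helper17.KSLink.LEf r := by
    ext σ
    rw [mem_LEs, Pool.Agent.Helper17.KSLink.mem_LEf]
  rw [h2]
  exact Finset.card_pos.1 h1

theorem prob_eq_Ex {m : ℕ} (r : Fin m → Fin m → Prop) (x y : Fin m) :
    prob r x y = (((LEs r).filter (fun σ => σ x < σ y)).card : ℝ) / ((LEs r).card : ℝ) := by
  classical
  unfold prob LEs
  rw [Nat.card_eq_fintype_card, Nat.card_eq_fintype_card, Fintype.card_subtype,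
    Fintype.card_subtype, Finset.filter_filter]

theorem prob_ext (K : ℕ) (r : Fin n → Fin n → Prop) (x y : Fin n) :
    prob (ext K r) (emb K x) (emb K y) = prob r x y := by
  classical
  rw [prob_eq_Ex, prob_eq_Ex, LEs_ext, Finset.card_map, Finset.filter_map, Finset.card_map]
  congr 3
  ext τ
  simp only [Function.comp, Function.Embedding.coeFn_mk, Finset.mem_filter]
  rw [lft_emb, lft_emb, Fin.lt_def, Fin.lt_def, emb_val, emb_val]
  constructor
  · rintro ⟨h1, h2⟩; exact ⟨h1, by omega⟩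
  · rintro ⟨h1, h2⟩; exact ⟨h1, by omega⟩

theorem pos_lft (K : ℕ) (τ : Equiv.Perm (Fin n)) (x : Fin n) :
    pos (lft K τ) (emb K x) = pos τ x + K := by
  unfold pos
  rw [lft_emb, emb_val]
  push_cast; ring

theorem pos_chain (K : ℕ) (τ : Equiv.Perm (Fin n)) (q : Fin (K + n + K))
    (hq : (q : ℕ) < K ∨ K + n ≤ (q : ℕ)) : pos (lft K τ) q = ((q : ℕ) : ℝ) + 1 := by
  unfold pos
  rw [lft_chain K τ q hq]

theorem Ex_const {m : ℕ} (r : Fin m → Fin m → Prop) (hr : IsPoset r) (c : ℝ) :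
    Ex r (fun _ => c) = c := by
  unfold Ex
  have h : (0 : ℝ) < (LEs r).card := by
    exact_mod_cast Finset.card_pos.2 (LEs_nonempty r hr)
  rw [Finset.sum_const, nsmul_eq_mul, mul_div_cancel_left₀ _ h.ne']

theorem Ex_add {m : ℕ} (r : Fin m → Fin m → Prop) (f g : Equiv.Perm (Fin m) → ℝ) :
    Ex r (fun σ => f σ + g σ) = Ex r f + Ex r g := by
  unfold Ex
  rw [Finset.sum_add_distrib, add_div]

theorem ht_ext (K : ℕ) (r : Fin n → Fin n → Prop) (hr : IsPoset r) (x : Fin n) :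
    ht (ext K r) (emb K x) = ht r x + K := by
  unfold ht
  rw [Ex_ext]
  simp only [pos_lft]
  rw [Ex_add, Ex_const r hr]

theorem vr_ext (K : ℕ) (r : Fin n → Fin n → Prop) (hr : IsPoset r) (x : Fin n) :
    vr (ext K r) (emb K x) = vr r x := by
  unfold vr
  rw [Ex_ext, ht_ext K r hr]
  simp only [pos_lft]
  congr 1
  ext τ
  ring

theorem ht_chain (K : ℕ) (r : Fin n → Fin n → Prop) (hr : IsPoset r) (q : Fin (K + n + K))
    (hq : (q : ℕ) < K ∨ K + n ≤ (q : ℕ)) : ht (ext K r) q = ((q : ℕ) : ℝ) + 1 := by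
  unfold ht
  rw [Ex_ext]
  simp only [pos_chain K _ q hq]
  exact Ex_const r hr _

theorem vr_chain (K : ℕ) (r : Fin n → Fin n → Prop) (hr : IsPoset r) (q : Fin (K + n + K))
    (hq : (q : ℕ) < K ∨ K + n ≤ (q : ℕ)) : vr (ext K r) q = 0 := by
  unfold vr
  rw [Ex_ext, ht_chain K r hr q hq]
  simp only [pos_chain K _ q hq, sub_self]
  norm_num
  exact Ex_const r hr 0

theorem prob_of_rel {m : ℕ} (r : Fin m → Fin m → Prop) (hr : IsPoset r) {x y : Fin m}
    (hxy : r x y) (hne : x ≠ y) : prob r x y = 1 ∧ prob r y x = 0 := by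
  classical
  have h : (0 : ℝ) < (LEs r).card := by
    exact_mod_cast Finset.card_pos.2 (LEs_nonempty r hr)
  have h1 : ∀ σ ∈ LEs r, σ x < σ y := by
    intro σ hσ
    have := mem_LEs.1 hσ x y hxy
    exact lt_of_le_of_ne this (fun h => hne (σ.injective h))
  constructor
  · rw [prob_eq_Ex, Finset.filter_true_of_mem h1, div_self h.ne']
  · rw [prob_eq_Ex, Finset.filter_false_of_mem (fun σ hσ => not_lt.2 (h1 σ hσ).le)]
    simp

theorem unb_of_rel {m : ℕ} (r : Fin m → Fin m → Prop) (hr : IsPoset r) {x y : Fin m}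
    (hxy : r x y ∨ r y x) (hne : x ≠ y) {ε : ℝ} (hε : ε ≤ 1 / 2) : ε ≤ |prob r x y - 1 / 2| := by
  rcases hxy with h | h
  · rw [(prob_of_rel r hr h hne).1, abs_of_nonneg (by norm_num)]; linarith
  · rw [(prob_of_rel r hr h hne.symm).2, abs_of_nonpos (by norm_num)]; linarith

theorem unb_ext (K : ℕ) (r : Fin n → Fin n → Prop) (hr : IsPoset r) {ε : ℝ} (hε : ε ≤ 1 / 2)
    (h : Unb ε r) : Unb ε (ext K r) := by
  intro a b hab
  have hE := ext_isPoset K r hr
  by_cases ha : (a : ℕ) < K ∨ K + n ≤ (a : ℕ)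
  · refine unb_of_rel _ hE ?_ hab hε
    rcases le_total a b with hl | hl
    · rcases ha with ha | ha
      · exact Or.inl (Or.inl ⟨ha, hl⟩)
      · exact Or.inl (Or.inr (Or.inl ⟨le_trans ha hl, hl⟩))
    · rcases ha with ha | ha
      · exact Or.inr (Or.inl ⟨lt_of_le_of_lt hl ha, hl⟩)
      · exact Or.inr (Or.inr (Or.inl ⟨ha, hl⟩))
  · by_cases hb : (b : ℕ) < K ∨ K + n ≤ (b : ℕ)
    · refine unb_of_rel _ hE ?_ hab hε
      rcases le_total a b with hl | hl
      · rcases hb with hb | hb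
        · exact Or.inl (Or.inl ⟨lt_of_le_of_lt hl hb, hl⟩)
        · exact Or.inl (Or.inr (Or.inl ⟨hb, hl⟩))
      · rcases hb with hb | hb
        · exact Or.inr (Or.inl ⟨hb, hl⟩)
        · exact Or.inr (Or.inr (Or.inl ⟨le_trans hb hl, hl⟩))
    · obtain ⟨x, rfl⟩ := exists_emb K a (by omega) (by omega)
      obtain ⟨y, rfl⟩ := exists_emb K b (by omega) (by omega)
      rw [prob_ext]
      exact h x y (fun hh => hab (by rw [hh]))

/-- The last element of the extended poset. -/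
def extTop (K n : ℕ) (hK : 0 < K) : Fin (K + n + K) := ⟨K + n + K - 1, by omega⟩

theorem ext_top (K : ℕ) (hK : 0 < K) (r : Fin n → Fin n → Prop) (x : Fin (K + n + K)) :
    ext K r x (extTop K n hK) := by
  refine Or.inr (Or.inl ⟨?_, ?_⟩)
  · show K + n ≤ K + n + K - 1
    omega
  · rw [Fin.le_def]
    show (x : ℕ) ≤ K + n + K - 1
    omega

end Pool.Agent.Helper11.Chain
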