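import Pool.Agent.Helper8.KS.KSFinal
import Pool.Agent.Helper60.KS.Width

set_option autoImplicit false

/-!
# Structure of the finite posets with balance constant at most `1/2 - ε`
-/

open Pool.Agent.Helper1.Balance Pool.Agent.Helper8.KS

namespace Pool.Agent.Helper11.KSStruct

theorem unb_of_balance {n : ℕ} (r : Fin n → Fin n → Prop) (hr : IsPoset r) {ε : ℝ}
    (hε : 0 < ε) (hb : balance r ≤ 1 / 2 - ε) : Unb (min ε (1 / 2)) r := by
  intro x y hxy
  by_cases h : r x y ∨ r y x
  · exact Pool.Agent.Helper11.Chain.unb_of_rel r hr h hxy (min_le_right _ _)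
  · push Not at h
    refine le_trans (min_le_left _ _) ?_
    have h4 := min_le_balance' r hr h.1 h.2
    have h5 := prob_add' r hr hxy
    by_contra hcon
    push Not at hcon
    rw [abs_lt] at hcon
    have h6 : 1 / 2 - ε < min (prob r x y) (prob r y x) := lt_min (by linarith) (by linarith)
    linarith

/-- bounded spread of the positions -/
theorem spread {ε : ℝ} (hε : 0 < ε) : ∃ D : ℝ, 1 ≤ D ∧ ∀ {n : ℕ} (r : Fin n → Fin n → Prop),
    IsPoset r → balance r ≤ 1 / 2 - ε → ∀ x, vr r x ≤ D ^ 2 := by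
  obtain ⟨D0, hD0, h1⟩ := theoremI (min ε (1 / 2)) (lt_min hε (by norm_num))
  exact ⟨D0, hD0, fun r hr hb x => h1 r hr (unb_of_balance r hr hε hb) x⟩

open Classical in
/-- every element is incomparable to boundedly many others -/
theorem incomp {ε : ℝ} (hε : 0 < ε) : ∃ B : ℕ, ∀ {n : ℕ} (r : Fin n → Fin n → Prop),
    IsPoset r → balance r ≤ 1 / 2 - ε →
    ∀ x, (Finset.univ.filter (fun y => ¬ r x y ∧ ¬ r y x)).card ≤ B := by
  obtain ⟨D, hD, h1⟩ := spread hε
  obtain ⟨R, hR, h2⟩ := Pool.Agent.Helper60.KS.close D (by linarith)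
  refine ⟨⌊4 / 3 * (2 * R + 4 * D + 1)⌋₊, fun {n} r hr hb x => ?_⟩
  have hV : Pool.Agent.Helper60.KS.VarLe r (fun x => ht r x - 1) D := by
    intro x
    have hpos : (0 : ℝ) < ((Pool.Agent.Helper18.Interval.LX r).card : ℝ) := by
      exact_mod_cast Pool.Agent.Helper60.KS.LX_card_pos hr
    have h3 := h1 r hr hb x
    unfold vr Ex at h3
    rw [LEs_eq_LX, div_le_iff₀ hpos] at h3
    refine le_trans (le_of_eq ?_) h3
    refine Finset.sum_congr rfl fun σ _ => ?_
    unfold pos
    ring
  have hN := Pool.Agent.Helper60.KS.LX_card_pos hr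
  have h3 := Pool.Agent.Helper60.KS.density (by linarith) hV hN (ht r x - 1) R hR
  apply Nat.le_floor
  refine le_trans ?_ h3
  norm_cast
  apply Finset.card_le_card
  intro y hy
  rw [Finset.mem_filter] at hy ⊢
  refine ⟨Finset.mem_univ _, ?_⟩
  have e1 := h2 n r _ hr hV hN x y hy.2.1
  have e2 := h2 n r _ hr hV hN y x hy.2.2
  rw [abs_le]
  constructor <;> linarith

end Pool.Agent.Helper11.KSStruct
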